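import Pool.Agent.Q130.UQ.Defs

/-!
The counting argument: the image of a disc of a minimal set under a long range stable holonomy does
not contain a disc of a definite size.
-/

set_option autoImplicit false

namespace Pool.Agent.Q6.UQ

open Pool.Agent.H721R2 Pool.Agent.H779R2.An Pool.Agent.Q130.UQ Filter Topology

variable {X E : Type*} [MetricSpace X] [NormedAddCommGroup E] [NormedSpace ℝ E]

/-- `m` points of the disc of radius `r` about `x₀` which are pairwise separated at time `N` -/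
def PP (S : HypSys X E) (σ r : ℝ) (x₀ : X) (N m : ℕ) : Prop :=
  ∃ f : Fin m → X, (∀ i, S.URel r x₀ (f i)) ∧
    ∀ i j, i ≠ j → ¬ S.URel (5 * σ) (S.g^[N] (f i)) (S.g^[N] (f j))

theorem URel_pred {S : HypSys X E} {c : ℝ} {a b : X} {N : ℕ}
    (h : S.URel c (S.g^[N + 1] a) (S.g^[N + 1] b)) : S.URel c (S.g^[N] a) (S.g^[N] b) := by
  have h1 := h.map
  rw [Function.iterate_succ_apply', Function.iterate_succ_apply', Homeomorph.symm_apply_apply,
    Homeomorph.symm_apply_apply] at h1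
  exact h1

theorem URel_le {S : HypSys X E} {c : ℝ} {a b : X} {N M : ℕ} (hNM : N ≤ M)
    (h : S.URel c (S.g^[M] a) (S.g^[M] b)) : S.URel c (S.g^[N] a) (S.g^[N] b) := by
  induction M, hNM using Nat.le_induction with
  | base => exact h
  | succ M _ ih => exact ih (URel_pred h)

theorem PP.mono {S : HypSys X E} {σ r : ℝ} {x₀ : X} {N M m : ℕ} (hNM : N ≤ M)
    (h : PP S σ r x₀ N m) : PP S σ r x₀ M m := by
  obtain ⟨f, h1, h2⟩ := h
  exact ⟨f, h1, fun i j hij hc => h2 i j hij (URel_le hNM hc)⟩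

/-- points which are never separated are equal -/
theorem eq_of_never {S : HypSys X E} {ε₀ : ℝ} (hG : Geo S ε₀) {c : ℝ} (hc : c ≤ ε₀) {a b : X}
    (h : ∀ N : ℕ, S.URel c (S.g^[N] a) (S.g^[N] b)) : a = b := by
  have h1 : ∀ N : ℕ, dist a b ≤ (1 / 8) ^ N * c := by
    intro N
    have h2 := hG.ucontr _ _ ((h N).mono hc) N
    rw [iter_symm_iter, iter_symm_iter] at h2
    exact h2.trans (mul_le_mul_of_nonneg_left (h N).dist_le (by positivity))
  have h3 : Tendsto (fun N : ℕ => (1 / 8 : ℝ) ^ N * c) atTop (𝓝 0) := by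
    have := (tendsto_pow_atTop_nhds_zero_of_lt_one (by norm_num : (0 : ℝ) ≤ 1 / 8)
      (by norm_num)).mul_const c
    simpa using this
  exact dist_le_zero.mp (ge_of_tendsto' h3 h1)

/-- every number of points is separated at some time -/
theorem PP.exists_time {S : HypSys X E} {ε₀ : ℝ} (hG : Geo S ε₀) {σ r : ℝ} (hσ : 5 * σ ≤ ε₀)
    {x₀ : X} (hinf : {z | S.URel r x₀ z}.Infinite) (m : ℕ) : ∃ N, PP S σ r x₀ N m := by
  classical
  obtain ⟨t, ht, hcard⟩ := hinf.exists_subset_card_eq m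
  let e : Fin m ≃ t := (Fintype.equivFinOfCardEq (by simp [hcard])).symm
  have h1 : ∀ p : Fin m × Fin m, ∃ N : ℕ, p.1 ≠ p.2 →
      ¬ S.URel (5 * σ) (S.g^[N] (e p.1 : X)) (S.g^[N] (e p.2 : X)) := by
    intro p
    by_contra hcon
    push Not at hcon
    have h2 : (e p.1 : X) = e p.2 := eq_of_never hG hσ (fun N => (hcon N).2)
    exact (hcon 0).1 (e.injective (Subtype.ext h2))
  choose N hN using h1
  refine ⟨Finset.univ.sup N, fun i => (e i : X), fun i => ht (e i).2, fun i j hij hc => ?_⟩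
  exact hN (i, j) hij (URel_le (Finset.le_sup (Finset.mem_univ (i, j))) hc)

/-- uniform continuity of finitely many iterates -/
theorem unif_iter [CompactSpace X] (S : HypSys X E) (c : ℝ) (hc : 0 < c) (N : ℕ) :
    ∃ δ > 0, ∀ a b : X, dist a b < δ → ∀ j ≤ N, dist (S.g^[j] a) (S.g^[j] b) ≤ c := by
  have huc : ∀ j : ℕ, ∃ δ > 0, ∀ x y : X, dist x y < δ →
      dist (S.g^[j] x) (S.g^[j] y) < c := by
    intro j
    have := CompactSpace.uniformContinuous_of_continuous (S.g.continuous.iterate j)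
    obtain ⟨δ, hδ, h1⟩ := Metric.uniformContinuous_iff.mp this c hc
    exact ⟨δ, hδ, fun x y hxy => h1 hxy⟩
  induction N with
  | zero =>
    obtain ⟨δ, hδ, h1⟩ := huc 0
    refine ⟨δ, hδ, fun x y hxy j hj => ?_⟩
    have : j = 0 := by omega
    subst this
    exact (h1 x y hxy).le
  | succ k ih =>
    obtain ⟨δ, hδ, h1⟩ := ih
    obtain ⟨δ', hδ', h2⟩ := huc (k + 1)
    refine ⟨min δ δ', lt_min hδ hδ', fun x y hxy j hj => ?_⟩
    rcases Nat.lt_or_ge j (k + 1) with h3 | h3
    · exact h1 x y (lt_of_lt_of_le hxy (min_le_left _ _)) j (by omega)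
    · have : j = k + 1 := by omega
      subst this
      exact (h2 x y (lt_of_lt_of_le hxy (min_le_right _ _))).le

/-- a bounded number of points is separated at a given time -/
theorem PP.bounded [CompactSpace X] {S : HypSys X E} {σ r : ℝ} (hσ : 0 < σ) (hr : 2 * r ≤ 5 * σ)
    (x₀ : X) (N : ℕ) : ∃ M : ℕ, ∀ m, PP S σ r x₀ N m → m ≤ M := by
  classical
  obtain ⟨δ, hδ, h1⟩ := unif_iter S (5 * σ) (by positivity) N
  obtain ⟨t, ht, hcov⟩ := Metric.totallyBounded_iff.mp
    (isCompact_univ (X := X)).totallyBounded (δ / 2) (by positivity)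
  refine ⟨ht.toFinset.card, fun m hm => ?_⟩
  obtain ⟨f, hf, hsep⟩ := hm
  have h2 : ∀ i : Fin m, ∃ y ∈ t, dist (f i) y < δ / 2 := by
    intro i
    have := hcov (Set.mem_univ (f i))
    simp only [Set.mem_iUnion, Metric.mem_ball] at this
    obtain ⟨y, hy, hd⟩ := this
    exact ⟨y, hy, hd⟩
  choose y hy hd using h2
  have hinj : Function.Injective y := by
    intro i j hij
    by_contra hne
    apply hsep i j hne
    have h3 : dist (f i) (f j) < δ := by
      have := dist_triangle (f i) (y i) (f j)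
      have h4 := hd i
      have h5 := hd j
      rw [← hij, dist_comm] at h5
      linarith
    intro k
    rcases le_total k N with hk | hk
    · rw [symm_iter_iter_le S hk, symm_iter_iter_le S hk]
      exact h1 _ _ h3 _ (by omega)
    · rw [symm_iter_iter_ge S hk, symm_iter_iter_ge S hk]
      have h6 := ((hf i).symm.trans (hf j)) (k - N)
      linarith
  have h7 : (Finset.univ.image y).card = m := by
    rw [Finset.card_image_of_injective _ hinj]; simp
  have h8 : Finset.univ.image y ⊆ ht.toFinset := by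
    intro z hz
    simp only [Finset.mem_image, Finset.mem_univ, true_and] at hz
    obtain ⟨i, rfl⟩ := hz
    exact ht.mem_toFinset.mpr (hy i)
  rw [← h7]
  exact Finset.card_le_card h8

/-- closeness transfers along stable leaves -/
theorem LP {S : HypSys X E} {e s c : ℝ} {A B A' B' : X} (k : ℕ) (h1 : S.SRel e A B)
    (h2 : S.SRel e A' B') (h3 : S.URel s A A') (h4 : S.URel c (S.g^[k] B) (S.g^[k] B')) :
    S.URel (max s (c + 2 * e)) (S.g^[k] A) (S.g^[k] A') := by
  intro j
  rcases le_total j k with hj | hj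
  · have h5 := h4 j
    rw [symm_iter_iter_le S hj, symm_iter_iter_le S hj] at h5 ⊢
    have h6 := h1 (k - j)
    have h7 := h2 (k - j)
    rw [dist_comm] at h7
    have h8 := dist_triangle4 (S.g^[k - j] A) (S.g^[k - j] B) (S.g^[k - j] B') (S.g^[k - j] A')
    exact le_trans (by linarith) (le_max_right _ _)
  · rw [symm_iter_iter_ge S hj, symm_iter_iter_ge S hj]
    exact (h3 _).trans (le_max_left _ _)

theorem LP' {S : HypSys X E} {e s c d : ℝ} {A B A' B' : X} (k : ℕ) (h1 : S.SRel e A B)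
    (h2 : S.SRel e A' B') (h3 : S.URel s A A') (hs : s ≤ d) (hc : c + 2 * e ≤ d)
    (h5 : ¬ S.URel d (S.g^[k] A) (S.g^[k] A')) : ¬ S.URel c (S.g^[k] B) (S.g^[k] B') :=
  fun h4 => h5 ((LP k h1 h2 h3 h4).mono (max_le hs hc))

/-- strong contraction of unstable discs in backward time -/
theorem URel_contr {S : HypSys X E} {ε₀ : ℝ} (hG : Geo S ε₀) {c : ℝ} (hc : c ≤ ε₀) {a b : X}
    (h : S.URel c a b) (j : ℕ) : S.URel ((1 / 8) ^ j * c) (S.g.symm^[j] a) (S.g.symm^[j] b) := by
  intro k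
  rw [← Function.iterate_add_apply, ← Function.iterate_add_apply]
  have h1 := hG.ucontr _ _ (h.mono hc) (k + j)
  have h2 : (1 / 8 : ℝ) ^ (k + j) ≤ (1 / 8) ^ j :=
    pow_le_pow_of_le_one (by norm_num) (by norm_num) (by omega)
  have h3 := h.dist_le
  calc _ ≤ (1 / 8 : ℝ) ^ (k + j) * dist a b := h1
    _ ≤ (1 / 8) ^ j * dist a b := mul_le_mul_of_nonneg_right h2 dist_nonneg
    _ ≤ _ := mul_le_mul_of_nonneg_left h3 (by positivity)

theorem claimB [CompactSpace X] {S : HypSys X E} {ε₀ : ℝ} (hG : Geo S ε₀)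
    (hinf : ∀ x : X, ∀ r > 0, {z | S.URel r x z}.Infinite) (h1 : SEnter S) (h2 : SReach S) :
    SClaimB S := by
  have hε₀ := hG.pos
  refine ⟨ε₀ / 8, by positivity, fun σ hσ hσ0 Λ hΛ l => ?_⟩
  obtain ⟨x₀, hx₀⟩ := hΛ.nonempty
  have h5σ : 5 * σ ≤ ε₀ := by linarith
  -- first scale
  obtain ⟨δ₃, hδ₃, hbr₃⟩ := exists_bracket S (σ / 2) (by positivity)
  set r : ℝ := min (δ₃ / 2) (5 * σ / 2) with hr
  have hr0 : 0 < r := lt_min (by positivity) (by positivity)
  have hr1 : r ≤ δ₃ / 2 := min_le_left _ _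
  have hr2 : 2 * r ≤ 5 * σ := by
    have : r ≤ 5 * σ / 2 := min_le_right _ _
    linarith
  -- second scale
  set e₄ : ℝ := min (σ / 8) (r / 2) with he₄
  have he0 : 0 < e₄ := lt_min (by positivity) (by positivity)
  have he1 : e₄ ≤ σ / 8 := min_le_left _ _
  have he2 : e₄ ≤ r / 2 := min_le_right _ _
  obtain ⟨δ₄, hδ₄, hbr₄⟩ := exists_bracket S e₄ he0
  obtain ⟨j, hj⟩ : ∃ j : ℕ, (1 / 8 : ℝ) ^ j * σ < min (σ / 4) (δ₄ / 2) := by
    have h3 : Tendsto (fun N : ℕ => (1 / 8 : ℝ) ^ N * σ) atTop (𝓝 0) := by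
      have := (tendsto_pow_atTop_nhds_zero_of_lt_one (by norm_num : (0 : ℝ) ≤ 1 / 8)
        (by norm_num)).mul_const σ
      simpa using this
    have hpos : 0 < min (σ / 4) (δ₄ / 2) := lt_min (by positivity) (by positivity)
    exact (h3.eventually_lt_const hpos).exists
  have hj1 : (1 / 8 : ℝ) ^ j * σ ≤ σ / 4 := hj.le.trans (min_le_left _ _)
  have hj2 : (1 / 8 : ℝ) ^ j * σ ≤ δ₄ / 2 := hj.le.trans (min_le_right _ _)
  obtain ⟨t₀, ht₀⟩ := h1 Λ hΛ x₀ hx₀ (σ / 2) (by positivity) (δ₃ / 2) (by positivity)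
  obtain ⟨s₀, hs₀⟩ := h2 Λ hΛ x₀ hx₀ (r / 2) (by positivity) (δ₄ / 2) (by positivity)
  set k₀ : ℕ := t₀ + (l + j) + s₀ + 3 with hk₀
  refine ⟨k₀, fun x hx A φ hφ hxA hAl => ?_⟩
  by_contra hcon
  push Not at hcon
  obtain ⟨N₀, hN₀⟩ := hφ.ev
  -- invariance of `Λ` under iterates
  have hmap : ∀ (n : ℕ) (y : X), y ∈ Λ → S.g.symm^[n] y ∈ Λ := by
    intro n
    induction n with
    | zero => intro y hy; exact hy
    | succ n ih =>
      intro y hy
      rw [Function.iterate_succ_apply']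
      exact hΛ.map' _ (ih y hy)
  set y₀ : X := S.g.symm^[k₀] (φ x) with hy₀
  -- discs about `y₀` are in the image
  have hdisc : ∀ z, S.URel σ y₀ z → ∃ a ∈ A, φ a = S.g^[k₀] z := by
    intro z hz
    have h3 : UAsym S y₀ z := hG.uasym _ _ (hz.mono (by linarith))
    have h4 := h3.iter k₀
    rw [hy₀, iter_iter_symm] at h4
    have h5 := hcon (S.g^[k₀] z) h4 (by rw [iter_symm_iter]; exact hz)
    obtain ⟨a, ha, hφa⟩ := h5
    exact ⟨a, ha, hφa⟩
  have hAΛ : ∀ a ∈ A, a ∈ Λ := fun a ha => hΛ.sat x hx a (hφ.ua x hxA a ha)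
  have hws : ∀ z, S.URel (σ / 2) y₀ z → z ∈ Ws S Λ := by
    intro z hz
    obtain ⟨a, ha, hφa⟩ := hdisc z (hz.mono (by linarith))
    refine ⟨S.g.symm^[k₀] a, hmap k₀ a (hAΛ a ha), ?_⟩
    have h3 : SAsym S a (φ a) :=
      SAsym.of_iter N₀ (hG.sasym _ _ (((hN₀ N₀ le_rfl).1 a ha).mono (by linarith)))
    have h4 := h3.symm_iter k₀
    rwa [hφa, iter_symm_iter] at h4
  obtain ⟨z, t, htt, hz1, hz2⟩ := ht₀ y₀ hws
  -- the key step
  have key : ∀ N m, N₀ + k₀ ≤ N → PP S σ r x₀ N m → PP S σ r x₀ (N - 1) m := by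
    intro N m hN hP
    obtain ⟨f, hf, hsep⟩ := hP
    have hb : ∀ i, ∃ w, S.SRel (σ / 2) (f i) w ∧ S.URel (σ / 2) w (S.g^[t] z) := by
      intro i
      refine hbr₃ _ _ ?_
      have h3 := (hf i).dist_le
      have h4 := dist_triangle (f i) x₀ (S.g^[t] z)
      rw [dist_comm (f i) x₀, dist_comm x₀ (S.g^[t] z)] at h4
      linarith
    choose w hw1 hw2 using hb
    have hwsep : ∀ i i', i ≠ i' → ¬ S.URel (3 * σ) (S.g^[N] (w i)) (S.g^[N] (w i')) := by
      intro i i' hii
      exact LP' N (hw1 i) (hw1 i') ((hf i).symm.trans (hf i')) (by linarith) (by linarith)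
        (hsep i i' hii)
    have hw' : ∀ i, ∃ a ∈ A, φ a = S.g^[k₀] (S.g.symm^[t] (w i)) := by
      intro i
      refine hdisc _ ?_
      have h3 := ((hw2 i).iter t).symm
      rw [iter_symm_iter] at h3
      exact (hz1.trans h3).mono (by linarith)
    choose a ha hφa using hw'
    set N' : ℕ := N + t - k₀ with hN'
    have hN'N : N₀ ≤ N' := by omega
    have hNw : ∀ i, S.g^[N'] (φ (a i)) = S.g^[N] (w i) := by
      intro i
      rw [hφa, ← Function.iterate_add_apply]
      have h3 : N' + k₀ = N + t := by omega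
      rw [h3, Function.iterate_add_apply, iter_iter_symm]
    have hasep : ∀ i i', i ≠ i' → ¬ S.URel σ (S.g^[N'] (a i)) (S.g^[N'] (a i')) := by
      intro i i' hii hc
      have h3 := (hN₀ N' hN'N).2 (a i) (ha i) (a i') (ha i') hc
      rw [hNw, hNw] at h3
      exact hwsep i i' hii h3
    -- back to `x₀`
    have hxm : S.g.symm^[l + j] x ∈ Λ := hmap _ _ hx
    obtain ⟨z₂, s, hss, hz₂1, hz₂2⟩ := hs₀ _ hxm
    have hcl : ∀ i, S.URel ((1 / 8) ^ j * σ) (S.g.symm^[l + j] x) (S.g.symm^[l + j] (a i)) := by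
      intro i
      have h3 := URel_contr hG (by linarith) (hAl (a i) (ha i)) j
      rwa [← Function.iterate_add_apply, ← Function.iterate_add_apply, Nat.add_comm j l] at h3
    have hb2 : ∀ i, ∃ v, S.SRel e₄ (S.g.symm^[l + j] (a i)) v ∧ S.URel e₄ v (S.g^[s] z₂) := by
      intro i
      refine hbr₄ _ _ ?_
      have h3 := (hcl i).dist_le
      have h4 := dist_triangle (S.g.symm^[l + j] (a i)) (S.g.symm^[l + j] x) (S.g^[s] z₂)
      rw [dist_comm (S.g.symm^[l + j] (a i)) (S.g.symm^[l + j] x),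
        dist_comm (S.g.symm^[l + j] x) (S.g^[s] z₂)] at h4
      linarith
    choose v hv1 hv2 using hb2
    have hvsep : ∀ i i', i ≠ i' →
        ¬ S.URel (σ / 2) (S.g^[N' + (l + j)] (v i)) (S.g^[N' + (l + j)] (v i')) := by
      intro i i' hii
      refine LP' (N' + (l + j)) (hv1 i) (hv1 i') ((hcl i).symm.trans (hcl i'))
        (d := σ) (by linarith) (by linarith) ?_
      have h3 : ∀ i, S.g^[N' + (l + j)] (S.g.symm^[l + j] (a i)) = S.g^[N'] (a i) := by
        intro i
        rw [Function.iterate_add_apply _ N' (l + j), iter_iter_symm]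
      rw [h3, h3]
      exact hasep i i' hii
    have hP2 : PP S σ r x₀ (N' + (l + j) + s + 2) m := by
      refine ⟨fun i => S.g.symm^[s] (v i), fun i => ?_, fun i i' hii hc => ?_⟩
      · have h3 := ((hv2 i).iter s).symm
        rw [iter_symm_iter] at h3
        exact (hz₂1.trans h3).mono (by linarith)
      · apply hvsep i i' hii
        have h3 := URel_contr hG h5σ hc 2
        have h4 : ∀ i, S.g.symm^[2] (S.g^[N' + (l + j) + s + 2] (S.g.symm^[s] (v i)))
            = S.g^[N' + (l + j)] (v i) := by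
          intro i
          rw [symm_iter_iter_le S (by omega : 2 ≤ N' + (l + j) + s + 2)]
          have h5 : N' + (l + j) + s + 2 - 2 = N' + (l + j) + s := by omega
          rw [h5, Function.iterate_add_apply _ _ s, iter_iter_symm]
        rw [h4, h4] at h3
        refine h3.mono ?_
        norm_num
        linarith
    exact hP2.mono (by omega)
  -- descend
  have hdesc : ∀ N m, N₀ + k₀ ≤ N → PP S σ r x₀ N m → PP S σ r x₀ (N₀ + k₀) m := by
    intro N m hN
    induction N, hN using Nat.le_induction with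
    | base => exact fun h => h
    | succ N hN ih =>
      intro h
      exact ih (key (N + 1) m (by omega) h)
  obtain ⟨M, hM⟩ := PP.bounded (S := S) hσ hr2 x₀ (N₀ + k₀)
  obtain ⟨N, hN⟩ := PP.exists_time hG h5σ (hinf x₀ r hr0) (M + 1)
  have h3 := hdesc (N + (N₀ + k₀)) (M + 1) (by omega) (hN.mono (by omega))
  have h4 := hM _ h3
  omega

end Pool.Agent.Q6.UQ
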